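import Pool.Agent.U319.FR.StmD

/-! Frog model: job DSTEP. -/

set_option autoImplicit false

open scoped ENNReal
open Finset

namespace Pool.Agent.U394.FR

open Pool.Agent.U319.FR

lemma natCast_ne_top' (k : ℕ) : (k : ℝ≥0∞) ≠ ⊤ := ENNReal.natCast_ne_top k

lemma sup_V_le (h1 : S_VFIN) (n f : ℕ) (P : Set Vx → Prop) (g : Set Vx → Cf) :
    ⨆ B : Set Vx, ⨆ _ : P B, V n f (g B) ≤ f :=
  iSup_le fun _ => iSup_le fun _ => h1 n f _

lemma WW_le (h1 : S_VFIN) (n f : ℕ) (v p : Vx) (cnt : Vx → ℕ) (A : Set Vx) (m e s : ℕ) :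
    WW n f v p cnt A m e s ≤ e + f := by
  unfold WW
  refine add_le_add ?_ (sup_V_le h1 n f (fun B => Out v A B ∧ Lab m s v B) _)
  split_ifs
  · exact le_rfl
  · exact zero_le

lemma WW_ne (h1 : S_VFIN) (n f : ℕ) (v p : Vx) (cnt : Vx → ℕ) (A : Set Vx) (m e s : ℕ) :
    WW n f v p cnt A m e s ≠ ⊤ :=
  ne_top_of_le_ne_top (ENNReal.add_ne_top.mpr ⟨natCast_ne_top' _, natCast_ne_top' _⟩)
    (WW_le h1 n f v p cnt A m e s)

lemma RR_ne (h1 : S_VFIN) (n f : ℕ) (v p : Vx) (A : Set Vx) (m s : ℕ) :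
    RR n f v p A m s ≠ ⊤ := WW_ne h1 n f v p _ A m 1 s

lemma HH_ne (h1 : S_VFIN) (n f : ℕ) (v p : Vx) (cnt : Vx → ℕ) (A : Set Vx) (m k : ℕ)
    (c : Fin 4 → ℕ) (e : ℕ) : HH n f v p cnt A m k c e ≠ ⊤ := by
  unfold HH
  refine ENNReal.add_ne_top.mpr ⟨?_, ne_top_of_le_ne_top (natCast_ne_top' f)
    (sup_V_le h1 n f (fun B => Env v A m c B) _)⟩
  split_ifs
  · exact natCast_ne_top' _
  · exact ENNReal.zero_ne_top

lemma XX_le (h1 : S_VFIN) (n f : ℕ) (v : Vx) (A : Set Vx) (m s : ℕ) :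
    XX n f v A m s ≤ f := by
  unfold XX
  exact sup_V_le h1 n f (fun B => Out v A B ∧ v ∈ B ∧ Lab (m + 1) s v B) _

lemma XX_ne (h1 : S_VFIN) (n f : ℕ) (v : Vx) (A : Set Vx) (m s : ℕ) :
    XX n f v A m s ≠ ⊤ := ne_top_of_le_ne_top (natCast_ne_top' f) (XX_le h1 n f v A m s)

lemma coef_ne (hSC : 0 < SC) (k : ℕ) : (k : ℝ≥0∞) / (SC : ℝ≥0∞) ≠ ⊤ := by
  refine ENNReal.div_ne_top (natCast_ne_top' k) ?_
  exact_mod_cast hSC.ne'

lemma KE_ne (hSC : 0 < SC) (a : ℕ) (g : ℕ → ℕ → ℝ≥0∞) (hg : ∀ y s, g y s ≠ ⊤) :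
    KE a g ≠ ⊤ := by
  unfold KE
  refine ENNReal.sum_ne_top.mpr fun s _ => ENNReal.sum_ne_top.mpr fun y _ => ?_
  exact ENNReal.mul_ne_top (coef_ne hSC _) (hg y s)

lemma TE_ne (hSC : 0 < SC) (a : ℕ) (g : ℕ → ℝ≥0∞) (hg : ∀ s, g s ≠ ⊤) :
    TE a g ≠ ⊤ := by
  unfold TE
  refine ENNReal.sum_ne_top.mpr fun s _ => ?_
  exact ENNReal.mul_ne_top (coef_ne hSC _) (hg s)

lemma KE_toReal (hSC : 0 < SC) (a : ℕ) (g : ℕ → ℕ → ℝ≥0∞) (hg : ∀ y s, g y s ≠ ⊤) :
    (KE a g).toReal = KV a (fun y s => (g y s).toReal) := by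
  unfold KE KV
  rw [ENNReal.toReal_sum]
  · refine Finset.sum_congr rfl fun s _ => ?_
    rw [ENNReal.toReal_sum]
    · refine Finset.sum_congr rfl fun y _ => ?_
      rw [ENNReal.toReal_mul, ENNReal.toReal_div, ENNReal.toReal_natCast, ENNReal.toReal_natCast]
    · intro y _
      exact ENNReal.mul_ne_top (coef_ne hSC _) (hg y s)
  · intro s _
    exact ENNReal.sum_ne_top.mpr fun y _ => ENNReal.mul_ne_top (coef_ne hSC _) (hg y s)

lemma TE_toReal (hSC : 0 < SC) (a : ℕ) (g : ℕ → ℝ≥0∞) (hg : ∀ s, g s ≠ ⊤) :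
    (TE a g).toReal = TV a (fun s => (g s).toReal) := by
  unfold TE TV
  rw [ENNReal.toReal_sum]
  · refine Finset.sum_congr rfl fun s _ => ?_
    rw [ENNReal.toReal_mul, ENNReal.toReal_div, ENNReal.toReal_natCast, ENNReal.toReal_natCast]
  · intro s _
    exact ENNReal.mul_ne_top (coef_ne hSC _) (hg s)

lemma V_none (n f : ℕ) (B : Set Vx) : V n f ⟨fun _ => 0, B⟩ = 0 := by
  cases f with
  | zero => rfl
  | succ f =>
    simp only [V]
    refine le_antisymm (iSup_le fun u => iSup_le fun hu => absurd hu (lt_irrefl _)) (zero_le)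

lemma dl_zero (p : Vx) : dl p 0 = fun _ => 0 := by
  funext x
  unfold dl
  split_ifs <;> rfl

lemma dl_add (p : Vx) (a b : ℕ) : dl p (a + b) = fun x => dl p a x + dl p b x := by
  funext x
  unfold dl
  split_ifs <;> rfl

lemma V_mul (h4 : S_VSUB) (n f : ℕ) (p : Vx) (y : ℕ) (B : Set Vx) :
    V n f ⟨dl p y, B⟩ ≤ y * V n f ⟨dl p 1, B⟩ := by
  induction y with
  | zero => rw [dl_zero, V_none]; exact zero_le
  | succ y ih =>
    have h := h4 n f ⟨dl p y, B⟩ ⟨dl p 1, B⟩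
    have e : (⟨dl p y, B⟩ : Cf).join ⟨dl p 1, B⟩ = ⟨dl p (y + 1), B⟩ := by
      unfold Cf.join
      rw [dl_add, Set.union_self]
    rw [e] at h
    refine h.trans ?_
    rw [Nat.cast_succ, add_mul, one_mul]
    gcongr

lemma Out.refl' (v : Vx) (A : Set Vx) : Out v A A := ⟨subset_rfl, fun _ _ => Iff.rfl⟩

lemma Out.trans' {v : Vx} {A B C : Set Vx} (h : Out v A B) (h' : Out v B C) : Out v A C :=
  ⟨h.1.trans h'.1, fun z hz => (h'.2 z hz).trans (h.2 z hz)⟩

/-- `WW` is large when there are more frogs and the label is smaller -/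
lemma WW_mono (hl : S_LAB) (h2 : S_VMONO) (n f : ℕ) (v p : Vx) (cnt : Vx → ℕ) (A : Set Vx)
    (m : ℕ) {e e' s s' : ℕ} (he : e ≤ e') (hs : s' ≤ s) :
    WW n f v p cnt A m e s ≤ WW n f v p cnt A m e' s' := by
  unfold WW
  refine add_le_add ?_ ?_
  · split_ifs
    · exact_mod_cast he
    · exact le_rfl
  · refine iSup_le fun B => iSup_le fun hB => ?_
    refine le_trans ?_ (le_iSup₂_of_le B ⟨hB.1, hl.1 m s s' v B hs hB.2⟩ le_rfl)
    refine h2 n f _ _ ⟨fun z => ?_, subset_rfl⟩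
    simp only
    gcongr
    unfold dl
    split_ifs
    · exact he
    · exact le_rfl

/-- `WW` with `e` frogs at the parent, none elsewhere -/
lemma WW_le_mul (h4 : S_VSUB) (n f : ℕ) (v p : Vx) (A : Set Vx) (m y s : ℕ) :
    WW n f v p (fun _ => 0) A m y s ≤ y * RR n f v p A m s := by
  unfold RR WW
  rw [mul_add]
  refine add_le_add ?_ ?_
  · split_ifs
    · rw [Nat.cast_one, mul_one]
    · exact zero_le
  · refine iSup_le fun B => iSup_le fun hB => ?_
    have e : ∀ k : ℕ, (fun x => (fun _ : Vx => (0 : ℕ)) x + dl p k x) = dl p k := by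
      intro k
      funext x
      simp
    have h := V_mul h4 n f p y B
    rw [e y]
    refine h.trans ?_
    gcongr
    refine le_iSup₂_of_le B hB ?_
    rw [e 1]

lemma RR_base (n f : ℕ) (v p : Vx) {A B : Set Vx} (m s : ℕ) (h : Out v A B) :
    RR n f v p B m s ≤ RR n f v p A m s := by
  unfold RR WW
  refine add_le_add le_rfl ?_
  refine iSup_le fun C => iSup_le fun hC => ?_
  exact le_iSup₂_of_le C ⟨Out.trans' h hC.1, hC.2⟩ le_rfl

lemma Mn_eq (a : ℕ) (r : ℝ) : Mn a * r = KV a (fun y _ => (y : ℝ) * r) + TV a (fun _ => r) := by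
  unfold Mn KV TV
  rw [add_mul, Finset.sum_mul, Finset.sum_mul]
  congr 1
  · refine Finset.sum_congr rfl fun s _ => ?_
    rw [Finset.sum_mul]
    refine Finset.sum_congr rfl fun y _ => ?_
    ring
  · refine Finset.sum_congr rfl fun s _ => ?_
    ring

lemma coefR_nonneg (k : ℕ) : (0 : ℝ) ≤ (k : ℝ) / SC := by positivity

/-- comparison of `KV` -/
lemma KV_le (ht : S_TAB) (a : ℕ) (g g' : ℕ → ℕ → ℝ) (h : ∀ y s, a ≤ s → g y s ≤ g' y s) :
    KV a g ≤ KV a g' := by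
  unfold KV
  refine Finset.sum_le_sum fun s _ => Finset.sum_le_sum fun y _ => ?_
  by_cases hs : a ≤ s
  · exact mul_le_mul_of_nonneg_left (h y s hs) (coefR_nonneg _)
  · rw [ht.2.2.1 a s y (not_le.mp hs)]
    simp

lemma TV_le (ht : S_TAB) (a : ℕ) (g g' : ℕ → ℝ) (h : ∀ s, a ≤ s → g s ≤ g' s) :
    TV a g ≤ TV a g' := by
  unfold TV
  refine Finset.sum_le_sum fun s _ => ?_
  by_cases hs : a ≤ s
  · exact mul_le_mul_of_nonneg_left (h s hs) (coefR_nonneg _)
  · rw [ht.2.2.2.1 a s (not_le.mp hs)]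
    simp

lemma Mn_nonneg (a : ℕ) : 0 ≤ Mn a := by
  unfold Mn KV TV
  have : ∀ k : ℕ, (0 : ℝ) ≤ (k : ℝ) / SC := coefR_nonneg
  refine add_nonneg ?_ ?_
  · exact Finset.sum_nonneg fun s _ => Finset.sum_nonneg fun y _ =>
      mul_nonneg (this _) (Nat.cast_nonneg _)
  · exact Finset.sum_nonneg fun s _ => mul_nonneg (this _) zero_le_one

/-- the case `m = 0` -/
theorem dom_zero (ht : S_TAB) (h2 : S_VMONO) : DOMat 0 := by
  intro n f i p hn cnt A hpA hcnt a ha _
  have hlen : n ≤ (i :: p).length := by simp [← hn]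
  have e1 : arr n (i :: p) ⟨cnt, A⟩ = ⟨cnt, A⟩ := by
    unfold arr
    rw [if_pos hlen]
  rw [e1]
  set x := V n f ⟨cnt, A⟩ with hx
  have hW : ∀ y s, x ≤ WW n f (i :: p) p cnt A 0 y s := by
    intro y s
    unfold WW
    refine le_add_left ?_
    refine le_iSup₂_of_le A ⟨Out.refl' _ _, trivial⟩ ?_
    refine h2 n f _ _ ⟨fun z => Nat.le_add_right _ _, subset_rfl⟩
  refine le_add_right ?_
  have hsum : ∑ s ∈ Icc 1 5, ∑ y ∈ range 7, (K a s y : ℝ≥0∞) / (SC : ℝ≥0∞) = 1 := by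
    have h3 := ht.2.1 a ha
    have h4 : ∑ s ∈ Icc 1 5, ∑ y ∈ range 7, (K a s y : ℝ≥0∞) = (SC : ℝ≥0∞) := by
      rw [← h3]
      push_cast
      rfl
    simp only [div_eq_mul_inv, ← Finset.sum_mul]
    rw [h4]
    refine ENNReal.mul_inv_cancel ?_ (natCast_ne_top' _)
    exact_mod_cast ht.1.ne'
  calc x = (∑ s ∈ Icc 1 5, ∑ y ∈ range 7, (K a s y : ℝ≥0∞) / (SC : ℝ≥0∞)) * x := by
        rw [hsum, one_mul]
    _ = ∑ s ∈ Icc 1 5, ∑ y ∈ range 7, (K a s y : ℝ≥0∞) / (SC : ℝ≥0∞) * x := by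
        rw [Finset.sum_mul]
        exact Finset.sum_congr rfl fun s _ => Finset.sum_mul _ _ _
    _ ≤ KE a (fun y s => WW n f (i :: p) p cnt A 0 y s) := by
        unfold KE
        refine Finset.sum_le_sum fun s _ => Finset.sum_le_sum fun y _ => ?_
        gcongr
        exact hW y s

/-- the geometric iteration -/
theorem key (ht : S_TAB) (hl : S_LAB) (h1 : S_VFIN) (h2 : S_VMONO) (h4 : S_VSUB) (hr : S_RUN)
    (hs : S_SYS) {m : ℕ} (hm : DOMat m) (n f : ℕ) (i : Fin 4) (p : Vx)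
    (hn : p.length + 1 + (m + 1) = n) (k : ℕ) : ∀ A : Set Vx, p ∈ A → ∀ s, 1 ≤ s → s ≤ 5 →
    (XX n f (i :: p) A m s).toReal ≤
      Mn s * (RR n f (i :: p) p A (m + 1) s).toReal + (9 / 10) ^ k * (f : ℝ) := by
  induction k with
  | zero =>
    intro A _ s _ _
    rw [pow_zero, one_mul]
    have h : (XX n f (i :: p) A m s).toReal ≤ (f : ℝ) := by
      have := ENNReal.toReal_mono (natCast_ne_top' f) (XX_le h1 n f (i :: p) A m s)
      rwa [ENNReal.toReal_natCast] at this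
    have h' := mul_nonneg (Mn_nonneg s)
      (ENNReal.toReal_nonneg (a := RR n f (i :: p) p A (m + 1) s))
    linarith
  | succ k ih =>
    intro A hpA s hs1 hs5
    set v : Vx := i :: p with hv
    have hpow : (0 : ℝ) ≤ (9 / 10) ^ k * (f : ℝ) := by positivity
    -- every admissible `B`
    have hB : ∀ B : Set Vx, Out v A B ∧ v ∈ B ∧ Lab (m + 1) s v B →
        (V n f ⟨dl v 1, B⟩).toReal ≤ Mn s * (RR n f v p A (m + 1) s).toReal +
          (9 / 10) ^ (k + 1) * (f : ℝ) := by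
      rintro B ⟨hAB, hvB, hlab⟩
      have hpB : p ∈ B := hAB.1 hpA
      have hsys := hs m hm n f i p hn (fun _ => 0) B hpB (fun _ _ => rfl)
      have hrun := hr _ _ _ _ ((9 / 10) ^ k * (f : ℝ)) hsys hpow
        (fun s => ENNReal.toReal_nonneg) (fun s => ENNReal.toReal_nonneg)
        (fun s' h1' h5' => ih B hpB s' h1' h5')
        (fun e s' _ h5' => ENNReal.toReal_mono (WW_ne h1 _ _ _ _ _ _ _ _ _)
          (WW_mono hl h2 n f v p _ B (m + 1) (Nat.zero_le e) h5')) s hs5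
      have hk0 : k0 s = 1 := by unfold k0; rw [if_neg (by omega)]
      rw [hk0] at hrun
      obtain ⟨_, π, hπ⟩ := hl.2.2.1 m s v B hs1 hs5 hlab
      have hV : V n f ⟨dl v 1, B⟩ ≤ HH n f v p (fun _ => 0) B m 1 (c0 s) 0 := by
        unfold HH
        refine le_add_left ?_
        refine le_iSup₂_of_le B ⟨Out.refl' _ _, hvB, π, hπ⟩ ?_
        refine h2 n f _ _ ⟨fun z => ?_, subset_rfl⟩
        simp only
        omega
      have hV' := ENNReal.toReal_mono (HH_ne h1 n f v p (fun _ => 0) B m 1 (c0 s) 0) hV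
      have hRB : ∀ s', s ≤ s' → (RR n f v p B (m + 1) s').toReal ≤
          (RR n f v p B (m + 1) s).toReal := fun s' hs' =>
        ENNReal.toReal_mono (RR_ne h1 _ _ _ _ _ _ _) (WW_mono hl h2 n f v p _ B (m + 1) le_rfl hs')
      have hW : ∀ y s', s ≤ s' → (WW n f v p (fun _ => 0) B (m + 1) y s').toReal ≤
          (y : ℝ) * (RR n f v p B (m + 1) s).toReal := by
        intro y s' hs'
        have h5 := ENNReal.toReal_mono (ENNReal.mul_ne_top (natCast_ne_top' y)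
          (RR_ne h1 n f v p B (m + 1) s')) (WW_le_mul h4 n f v p B (m + 1) y s')
        rw [ENNReal.toReal_mul, ENNReal.toReal_natCast] at h5
        exact h5.trans (mul_le_mul_of_nonneg_left (hRB s' hs') (Nat.cast_nonneg _))
      have hKV := KV_le ht s (fun y s' => (WW n f v p (fun _ => 0) B (m + 1) y s').toReal)
        (fun y _ => (y : ℝ) * (RR n f v p B (m + 1) s).toReal) hW
      have hTV := TV_le ht s (fun s' => (RR n f v p B (m + 1) s').toReal)
        (fun _ => (RR n f v p B (m + 1) s).toReal) hRB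
      have hMn := Mn_eq s (RR n f v p B (m + 1) s).toReal
      have hRA : (RR n f v p B (m + 1) s).toReal ≤ (RR n f v p A (m + 1) s).toReal :=
        ENNReal.toReal_mono (RR_ne h1 _ _ _ _ _ _ _) (RR_base n f v p (m + 1) s hAB)
      have hMR := mul_le_mul_of_nonneg_left hRA (Mn_nonneg s)
      have hpw : (9 / 10 : ℝ) ^ (k + 1) * (f : ℝ) = 9 / 10 * ((9 / 10) ^ k * (f : ℝ)) := by ring
      rw [hpw]
      linarith
    -- the supremum
    have hRHS : 0 ≤ Mn s * (RR n f v p A (m + 1) s).toReal + (9 / 10) ^ (k + 1) * (f : ℝ) :=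
      add_nonneg (mul_nonneg (Mn_nonneg s) ENNReal.toReal_nonneg) (by positivity)
    have hX : XX n f v A m s ≤ ENNReal.ofReal
        (Mn s * (RR n f v p A (m + 1) s).toReal + (9 / 10) ^ (k + 1) * (f : ℝ)) := by
      unfold XX
      refine iSup_le fun B => iSup_le fun hB' => ?_
      have hfin : V n f ⟨dl v 1, B⟩ ≠ ⊤ := ne_top_of_le_ne_top (natCast_ne_top' f) (h1 n f _)
      rw [← ENNReal.ofReal_toReal hfin]
      exact ENNReal.ofReal_le_ofReal (hB B hB')
    have h6 := ENNReal.toReal_mono ENNReal.ofReal_ne_top hX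
    rwa [ENNReal.toReal_ofReal hRHS] at h6

theorem key' (ht : S_TAB) (hl : S_LAB) (h1 : S_VFIN) (h2 : S_VMONO) (h4 : S_VSUB) (hr : S_RUN)
    (hs : S_SYS) {m : ℕ} (hm : DOMat m) (n f : ℕ) (i : Fin 4) (p : Vx)
    (hn : p.length + 1 + (m + 1) = n) (A : Set Vx) (hpA : p ∈ A) (s : ℕ) (hs1 : 1 ≤ s)
    (hs5 : s ≤ 5) :
    (XX n f (i :: p) A m s).toReal ≤ Mn s * (RR n f (i :: p) p A (m + 1) s).toReal := by
  have h := fun k => key ht hl h1 h2 h4 hr hs hm n f i p hn k A hpA s hs1 hs5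
  have hlim : Filter.Tendsto (fun k : ℕ => Mn s * (RR n f (i :: p) p A (m + 1) s).toReal +
      (9 / 10 : ℝ) ^ k * (f : ℝ)) Filter.atTop
      (nhds (Mn s * (RR n f (i :: p) p A (m + 1) s).toReal + 0 * (f : ℝ))) :=
    ((tendsto_pow_atTop_nhds_zero_of_lt_one (by norm_num) (by norm_num)).mul_const _).const_add _
  rw [zero_mul, add_zero] at hlim
  exact ge_of_tendsto hlim (Filter.Eventually.of_forall h)

/-- Job DSTEP. -/
theorem dstep (ht : S_TAB) (hl : S_LAB) (h1 : S_VFIN) (h2 : S_VMONO) (h4 : S_VSUB) (hr : S_RUN)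
    (hs : S_SYS) : S_DSTEP := by
  refine ⟨dom_zero ht h2, fun m hm n f i p hn cnt A hpA hcnt a ha hlab => ?_⟩
  set v : Vx := i :: p with hv
  have hlen : ¬ n ≤ v.length := by
    rw [hv, List.length_cons]
    omega
  have hsys := hs m hm n f i p hn cnt A hpA hcnt
  have hrun := hr _ _ _ _ 0 hsys le_rfl
    (fun s => ENNReal.toReal_nonneg) (fun s => ENNReal.toReal_nonneg)
    (fun s' h1' h5' => by
      rw [add_zero]
      exact key' ht hl h1 h2 h4 hr hs hm n f i p hn A hpA s' h1' h5')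
    (fun e s' _ h5' => ENNReal.toReal_mono (WW_ne h1 _ _ _ _ _ _ _ _ _)
      (WW_mono hl h2 n f v p _ A (m + 1) (Nat.zero_le e) h5')) a ha
  rw [mul_zero, add_zero, ← KE_toReal ht.1 a (fun y s => WW n f v p cnt A (m + 1) y s)
      (fun y s => WW_ne h1 _ _ _ _ _ _ _ _ _),
    ← TE_toReal ht.1 a (fun s => RR n f v p A (m + 1) s) (fun s => RR_ne h1 _ _ _ _ _ _ _),
    ← ENNReal.toReal_add (KE_ne ht.1 a _ (fun y s => WW_ne h1 _ _ _ _ _ _ _ _ _))
      (TE_ne ht.1 a _ (fun s => RR_ne h1 _ _ _ _ _ _ _))] at hrun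
  have hHH : HH n f v p cnt A m (k0 a) (c0 a) 0 ≤
      KE a (fun y s => WW n f v p cnt A (m + 1) y s) + TE a (fun s => RR n f v p A (m + 1) s) :=
    (ENNReal.toReal_le_toReal (HH_ne h1 _ _ _ _ _ _ _ _ _ _)
      (ENNReal.add_ne_top.mpr ⟨KE_ne ht.1 a _ (fun y s => WW_ne h1 _ _ _ _ _ _ _ _ _),
        TE_ne ht.1 a _ (fun s => RR_ne h1 _ _ _ _ _ _ _)⟩)).mp hrun
  refine le_trans ?_ hHH
  unfold HH
  refine le_add_left ?_
  by_cases ha0 : a = 0
  · subst ha0
    have hOut : Out v A (insert v A) := by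
      refine ⟨Set.subset_insert _ _, fun z hz => ?_⟩
      rw [Set.mem_insert_iff]
      constructor
      · rintro (h | h)
        · exact absurd (h ▸ List.suffix_refl v) hz
        · exact h
      · exact Or.inr
    have hL0 : ∀ (m : ℕ) (u : Vx) (B : Set Vx), Lab m 0 u B := by
      intro m u B
      cases m with
      | zero => exact trivial
      | succ m => exact Or.inl rfl
    have hc0 : ∀ j, c0 0 j = 0 := by
      intro j
      unfold c0
      rw [if_neg (by omega)]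
    refine le_iSup₂_of_le (insert v A) ⟨hOut, Set.mem_insert _ _, 1, fun j => ?_⟩ ?_
    · rw [hc0]
      exact hL0 _ _ _
    · have hk0 : k0 0 = 2 := rfl
      rw [hk0]
      unfold arr
      rw [if_neg hlen]
      split_ifs with hvA
      · refine h2 n f _ _ ⟨fun z => ?_, ?_⟩
        · simp only
          have : dl v 1 z ≤ dl v 2 z := by
            unfold dl
            split_ifs <;> omega
          omega
        · simp only
          rw [Set.insert_eq_of_mem hvA]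
      · refine h2 n f _ _ ⟨fun z => ?_, subset_rfl⟩
        simp only
        omega
  · have hk0 : k0 a = 1 := by unfold k0; rw [if_neg ha0]
    rw [hk0]
    obtain ⟨hvA, π, hπ⟩ := hl.2.2.1 m a v A (by omega) ha hlab
    refine le_iSup₂_of_le A ⟨Out.refl' _ _, hvA, π, hπ⟩ ?_
    unfold arr
    rw [if_neg hlen, if_pos hvA]
    refine h2 n f _ _ ⟨fun z => ?_, subset_rfl⟩
    simp only
    omega

end Pool.Agent.U394.FR
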